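import Pool.Agent.H6.FN.TargetsG

/-!
# MP_7500ea_al, fcn_modules, row HIT: a small set which meets many large sets
-/

set_option autoImplicit false

open scoped Classical

namespace Pool.Agent.H4.FN

open FI Finset

theorem pf_HIT : T_HIT := by
  intro α _ F P d hd hF
  haveI : Fintype α := Fintype.ofFinite α
  set n : ℕ := Nat.card α with hn
  have hnF : Fintype.card α = n := by rw [hn, Nat.card_eq_fintype_card]
  set J : Finset (α × α) := univ.filter (fun p => P p.1 p.2) with hJ
  have hJm : ∀ p : α × α, p ∈ J ↔ P p.1 p.2 := by
    intro p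
    rw [hJ, mem_filter]
    exact ⟨fun h => h.2, fun h => ⟨mem_univ _, h⟩⟩
  rcases J.eq_empty_or_nonempty with hJe | hJn
  · refine ⟨∅, ?_, ?_⟩
    · intro x y hxy
      have h1 := (hJm (x, y)).2 hxy
      rw [hJe] at h1
      exact absurd h1 (notMem_empty _)
    · have h1 := Real.log_natCast_nonneg n
      rw [card_empty, Nat.cast_zero]
      positivity
  · obtain ⟨p₀, hp₀⟩ := hJn
    have hne : Nonempty α := ⟨p₀.1⟩
    have hn1 : 1 ≤ n := by
      rw [← hnF]
      exact Fintype.card_pos
    have hn0 : (0 : ℝ) < n := by exact_mod_cast hn1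
    have hdn : d ≤ n := by
      have h1 := hF _ _ ((hJm _).1 hp₀)
      have h2 : ((F p₀.1 p₀.2).card : ℝ) ≤ n := by
        rw [← hnF]
        exact_mod_cast card_le_univ _
      linarith
    have hq0 : 0 ≤ 1 - d / n := by
      rw [sub_nonneg, div_le_one hn0]
      exact hdn
    have hstep : ∀ s : ℕ, ∃ B : Finset α, B.card ≤ s ∧
        ((J.filter (fun p => ∀ b ∈ B, b ∉ F p.1 p.2)).card : ℝ) ≤ J.card * (1 - d / n) ^ s := by
      intro s
      induction s with
      | zero =>
        refine ⟨∅, le_of_eq card_empty, ?_⟩
        rw [pow_zero, mul_one]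
        exact_mod_cast card_le_card (filter_subset _ _)
      | succ s ih =>
        obtain ⟨B, hB, hB'⟩ := ih
        set J' := J.filter (fun p => ∀ b ∈ B, b ∉ F p.1 p.2) with hJ'
        have hJ'm : ∀ p, p ∈ J' ↔ p ∈ J ∧ ∀ b ∈ B, b ∉ F p.1 p.2 := fun p => mem_filter
        have hsum : ∑ b : α, ((J'.filter (fun p => b ∈ F p.1 p.2)).card : ℝ) =
            ∑ p ∈ J', ((F p.1 p.2).card : ℝ) := by
          have h1 : ∑ b : α, (J'.filter (fun p => b ∈ F p.1 p.2)).card =
              ∑ p ∈ J', (F p.1 p.2).card := by
            simp_rw [card_filter]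
            rw [sum_comm]
            refine sum_congr rfl fun p _ => ?_
            rw [← card_filter]
            congr 1
            ext b
            simp
          exact_mod_cast h1
        have hlow : ∑ _b : α, (d / n * J'.card : ℝ) ≤
            ∑ b : α, ((J'.filter (fun p => b ∈ F p.1 p.2)).card : ℝ) := by
          rw [hsum, sum_const, card_univ, hnF, nsmul_eq_mul]
          have h1 : ∑ _p ∈ J', d ≤ ∑ p ∈ J', ((F p.1 p.2).card : ℝ) :=
            sum_le_sum fun p hp => hF _ _ ((hJm p).1 (mem_filter.1 hp).1)
          rw [sum_const, nsmul_eq_mul] at h1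
          have h2 : (n : ℝ) * (d / n * J'.card) = J'.card * d := by
            field_simp
          rw [h2]
          exact h1
        obtain ⟨b, _, hb⟩ := exists_le_of_sum_le (univ_nonempty) hlow
        refine ⟨insert b B, ?_, ?_⟩
        · have := card_insert_le b B
          omega
        · have h1 : J.filter (fun p => ∀ b' ∈ insert b B, b' ∉ F p.1 p.2) =
              J'.filter (fun p => ¬ b ∈ F p.1 p.2) := by
            ext p
            constructor
            · intro hp
              obtain ⟨h1, h2⟩ := mem_filter.1 hp
              exact mem_filter.2 ⟨(hJ'm p).2 ⟨h1, fun b' hb' => h2 b' (mem_insert_of_mem hb')⟩,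
                h2 b (mem_insert_self _ _)⟩
            · intro hp
              obtain ⟨h0, h3⟩ := mem_filter.1 hp
              obtain ⟨h1, h2⟩ := (hJ'm p).1 h0
              refine mem_filter.2 ⟨h1, fun b' hb' => ?_⟩
              rcases mem_insert.1 hb' with rfl | hb'
              · exact h3
              · exact h2 b' hb'
          rw [h1]
          have h2 := card_filter_add_card_filter_not (s := J') (fun p => b ∈ F p.1 p.2)
          have h3 : ((J'.filter (fun p => b ∈ F p.1 p.2)).card : ℝ) +
              ((J'.filter (fun p => ¬ b ∈ F p.1 p.2)).card : ℝ) = J'.card := by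
            exact_mod_cast h2
          have h4 : ((J'.filter (fun p => ¬ b ∈ F p.1 p.2)).card : ℝ) ≤
              J'.card * (1 - d / n) := by
            have h5 : (J'.card : ℝ) * (1 - d / n) = J'.card - d / n * J'.card := by ring
            rw [h5]
            linarith
          calc ((J'.filter (fun p => ¬ b ∈ F p.1 p.2)).card : ℝ) ≤ J'.card * (1 - d / n) := h4
            _ ≤ (J.card * (1 - d / n) ^ s) * (1 - d / n) :=
              mul_le_mul_of_nonneg_right hB' hq0
            _ = J.card * (1 - d / n) ^ (s + 1) := by ring
    have hJpos : (0 : ℝ) < J.card := by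
      exact_mod_cast card_pos.2 ⟨p₀, hp₀⟩
    have hlogJ : 0 ≤ Real.log J.card := Real.log_natCast_nonneg _
    set s : ℕ := ⌊n / d * Real.log J.card⌋₊ + 1 with hs
    have hs1 : n / d * Real.log J.card < s := by
      rw [hs]
      push_cast
      exact Nat.lt_floor_add_one _
    have hs2 : (s : ℝ) ≤ n / d * Real.log J.card + 1 := by
      rw [hs]
      push_cast
      have := Nat.floor_le (a := n / d * Real.log J.card) (by positivity)
      linarith
    obtain ⟨B, hB, hB'⟩ := hstep s
    refine ⟨B, ?_, ?_⟩
    · have h1 : (J.card : ℝ) * (1 - d / n) ^ s < 1 := by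
        have h2 : 1 - d / n ≤ Real.exp (-(d / n)) := by
          have := Real.add_one_le_exp (-(d / n))
          linarith
        have h3 : (1 - d / n) ^ s ≤ Real.exp (-(d / n) * s) := by
          calc (1 - d / n) ^ s ≤ (Real.exp (-(d / n))) ^ s := pow_le_pow_left₀ hq0 h2 s
            _ = Real.exp (-(d / n) * s) := by
              rw [← Real.exp_nat_mul]
              congr 1
              ring
        have h4 : Real.log J.card < d / n * s := by
          have h5 : Real.log J.card = d / n * (n / d * Real.log J.card) := by
            field_simp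
          rw [h5]
          exact mul_lt_mul_of_pos_left hs1 (by positivity)
        calc (J.card : ℝ) * (1 - d / n) ^ s ≤ J.card * Real.exp (-(d / n) * s) :=
              mul_le_mul_of_nonneg_left h3 hJpos.le
          _ = Real.exp (Real.log J.card + -(d / n) * s) := by
              rw [Real.exp_add, Real.exp_log hJpos]
          _ < Real.exp 0 := by
              apply Real.exp_lt_exp.2
              linarith
          _ = 1 := Real.exp_zero
      have h2 : (J.filter (fun p => ∀ b ∈ B, b ∉ F p.1 p.2)).card = 0 := by
        have h3 : ((J.filter (fun p => ∀ b ∈ B, b ∉ F p.1 p.2)).card : ℝ) < 1 :=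
          lt_of_le_of_lt hB' h1
        have h4 : (J.filter (fun p => ∀ b ∈ B, b ∉ F p.1 p.2)).card < 1 := by
          exact_mod_cast h3
        omega
      rw [card_eq_zero] at h2
      intro x y hxy
      by_contra hcon
      push Not at hcon
      have h3 : (x, y) ∈ J.filter (fun p => ∀ b ∈ B, b ∉ F p.1 p.2) :=
        mem_filter.2 ⟨(hJm _).2 hxy, hcon⟩
      rw [h2] at h3
      exact absurd h3 (notMem_empty _)
    · have h1 : (B.card : ℝ) ≤ s := by exact_mod_cast hB
      have h2 : J.card ≤ n * n := by
        calc J.card ≤ Fintype.card (α × α) := card_le_univ _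
          _ = n * n := by rw [Fintype.card_prod, hnF]
      have h3 : Real.log J.card ≤ 2 * Real.log n := by
        calc Real.log J.card ≤ Real.log ((n : ℝ) * n) := by
              apply Real.log_le_log hJpos
              exact_mod_cast h2
          _ = 2 * Real.log n := by
              rw [Real.log_mul hn0.ne' hn0.ne']
              ring
      calc (B.card : ℝ) ≤ n / d * Real.log J.card + 1 := le_trans h1 hs2
        _ ≤ n / d * (2 * Real.log n) + 1 := by
            have := mul_le_mul_of_nonneg_left h3 (by positivity : (0 : ℝ) ≤ n / d)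
            linarith
        _ = 2 * n / d * Real.log n + 1 := by ring

end Pool.Agent.H4.FN
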