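import Pool.Agent.H6.FN.TargetsG

/-!
# MP_7500ea_al, fcn_modules, row KPI: class numbers of intransitive groups
-/

set_option autoImplicit false

open scoped Classical

namespace Pool.Agent.H4.FN

open FI MulAction

theorem kc_le_of_surj {G H : Type} [Group G] [Group H] [Finite G] (f : G →* H)
    (hf : Function.Surjective f) : kc H ≤ kc G :=
  Nat.card_le_card_of_surjective _ (ConjClasses.map_surjective hf)

theorem kc_congr {G H : Type} [Group G] [Group H] [Finite G] (e : G ≃* H) : kc G = kc H := by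
  haveI : Finite H := Finite.of_equiv G e.toEquiv
  exact le_antisymm (kc_le_of_surj e.symm.toMonoidHom e.symm.surjective)
    (kc_le_of_surj e.toMonoidHom e.surjective)

/-- the restriction to an invariant set -/
def res {α : Type} (T : Subgroup (Equiv.Perm α)) (S : Set α)
    (hS : ∀ t ∈ T, ∀ y, t y ∈ S ↔ y ∈ S) : T →* Equiv.Perm S where
  toFun t := (t : Equiv.Perm α).subtypePerm (hS t t.2)
  map_one' := by
    ext y
    rfl
  map_mul' a b := by
    ext y
    rfl

theorem res_apply {α : Type} (T : Subgroup (Equiv.Perm α)) (S : Set α)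
    (hS : ∀ t ∈ T, ∀ y, t y ∈ S ↔ y ∈ S) (t : T) (y : S) :
    ((res T S hS t y : S) : α) = (t : Equiv.Perm α) y := rfl

theorem norb_le_card {β : Type} [Finite β] (T : Subgroup (Equiv.Perm β)) :
    norb β T ≤ Nat.card β :=
  Nat.card_le_card_of_surjective (Quotient.mk _) Quotient.mk_surjective

/-- the map on the orbits -/
theorem orbmap {α H : Type} [Group H] (T : Subgroup (Equiv.Perm α)) (S : Set α)
    (f : H →* Equiv.Perm S) (hf : ∀ h, ∃ t ∈ T, ∀ y : S, t (y : α) = ((f h y : S) : α)) :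
    ∃ Φ : orbitRel.Quotient f.range S → orbitRel.Quotient T α,
      ∀ y : S, Φ (Quotient.mk _ y) = Quotient.mk _ (y : α) := by
  refine ⟨Quotient.lift (fun y : S => (Quotient.mk _ (y : α) : orbitRel.Quotient T α)) ?_,
    fun y => rfl⟩
  intro a b hab
  apply Quotient.sound
  obtain ⟨⟨g, hg⟩, hgb⟩ := hab
  obtain ⟨h, rfl⟩ := hg
  obtain ⟨t, ht, htf⟩ := hf h
  refine ⟨⟨t, ht⟩, ?_⟩
  show t (b : α) = a
  rw [htf b]
  exact congrArg Subtype.val hgb

theorem pf_KPI (NAG : T_NAG) : T_KPI := by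
  intro C hC α _ ih T hT
  -- the orbit
  have hne : Nonempty α := by
    by_contra hcon
    rw [not_nonempty_iff] at hcon
    have h1 : IsEmpty (orbitRel.Quotient T α) := by
      constructor
      intro q
      obtain ⟨y, _⟩ := Quotient.exists_rep q
      exact isEmptyElim y
    have h2 : norb α T = 0 := Nat.card_of_isEmpty
    omega
  obtain ⟨x⟩ := hne
  obtain ⟨S, hSm⟩ : ∃ S : Set α, ∀ y, y ∈ S ↔ ∃ t ∈ T, t x = y := ⟨{y | ∃ t ∈ T, t x = y},
    fun y => Iff.rfl⟩
  have hS : ∀ t ∈ T, ∀ y, t y ∈ S ↔ y ∈ S := by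
    intro t ht y
    rw [hSm, hSm]
    constructor
    · rintro ⟨s, hs, hsx⟩
      refine ⟨t⁻¹ * s, T.mul_mem (T.inv_mem ht) hs, ?_⟩
      rw [Equiv.Perm.mul_apply, hsx, Equiv.Perm.inv_def, Equiv.symm_apply_apply]
    · rintro ⟨s, hs, hsx⟩
      refine ⟨t * s, T.mul_mem ht hs, ?_⟩
      rw [Equiv.Perm.mul_apply, hsx]
  have hSc : ∀ t ∈ T, ∀ y, t y ∈ Sᶜ ↔ y ∈ Sᶜ := by
    intro t ht y
    rw [Set.mem_compl_iff, Set.mem_compl_iff, hS t ht y]
  have hxS : x ∈ S := (hSm x).2 ⟨1, T.one_mem, rfl⟩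
  obtain ⟨z, hz⟩ : ∃ z, z ∉ S := by
    by_contra hcon
    push Not at hcon
    have h1 : Subsingleton (orbitRel.Quotient T α) := by
      constructor
      have h2 : ∀ q : orbitRel.Quotient T α, q = Quotient.mk _ x := by
        intro q
        obtain ⟨y, rfl⟩ := Quotient.exists_rep q
        apply Quotient.sound
        obtain ⟨t, ht, htx⟩ := (hSm y).1 (hcon y)
        exact ⟨⟨t, ht⟩, htx⟩
      intro a b
      rw [h2 a, h2 b]
    have h2 : norb α T ≤ 1 := Finite.card_le_one_iff_subsingleton.2 h1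
    omega
  obtain ⟨r1, hr1⟩ : ∃ r1 : T →* Equiv.Perm S, r1 = res T S hS := ⟨_, rfl⟩
  obtain ⟨r2, hr2⟩ : ∃ r2 : r1.ker →* Equiv.Perm (Sᶜ : Set α),
      r2 = (res T Sᶜ hSc).comp r1.ker.subtype := ⟨_, rfl⟩
  have hinj : Function.Injective r2 := by
    rw [injective_iff_map_eq_one]
    intro n hn
    apply Subtype.ext
    apply Subtype.ext
    apply Equiv.ext
    intro y
    by_cases hy : y ∈ S
    · have h0 : ∀ t : T, res T S hS t = r1 t := fun t => by rw [hr1]
      have h1 : res T S hS (n : T) = 1 := by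
        rw [h0]
        exact n.2
      have h2 := res_apply T S hS (n : T) ⟨y, hy⟩
      rw [h1] at h2
      exact h2.symm
    · have h2 := res_apply T Sᶜ hSc (n : T) ⟨y, hy⟩
      rw [hr2] at hn
      have h3 : (res T Sᶜ hSc) (n : T) = 1 := hn
      rw [h3] at h2
      exact h2.symm
  -- orbits
  have horb : norb α T ≤ norb S r1.range + norb (Sᶜ : Set α) r2.range := by
    obtain ⟨Φ1, hΦ1⟩ := orbmap T S r1 (by
      intro t
      refine ⟨t, t.2, fun y => ?_⟩
      rw [hr1]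
      exact (res_apply T S hS t y).symm)
    obtain ⟨Φ2, hΦ2⟩ := orbmap T Sᶜ r2 (by
      intro n
      refine ⟨(n : T), (n : T).2, fun y => ?_⟩
      rw [hr2]
      exact (res_apply T Sᶜ hSc (n : T) y).symm)
    have h1 : Function.Surjective (Sum.elim Φ1 Φ2) := by
      intro q
      obtain ⟨y, rfl⟩ := Quotient.exists_rep q
      by_cases hy : y ∈ S
      · exact ⟨Sum.inl (Quotient.mk _ ⟨y, hy⟩), hΦ1 ⟨y, hy⟩⟩
      · exact ⟨Sum.inr (Quotient.mk _ ⟨y, hy⟩), hΦ2 ⟨y, hy⟩⟩
    have h2 := Nat.card_le_card_of_surjective _ h1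
    rw [Nat.card_sum] at h2
    exact h2
  have hcard : Nat.card S + Nat.card (Sᶜ : Set α) = Nat.card α := by
    rw [← Nat.card_sum]
    exact Nat.card_congr (Equiv.Set.sumCompl S)
  have hpos1 : 0 < Nat.card S := by
    haveI : Nonempty S := ⟨⟨x, hxS⟩⟩
    exact Nat.card_pos
  have hpos2 : 0 < Nat.card (Sᶜ : Set α) := by
    haveI : Nonempty (Sᶜ : Set α) := ⟨⟨z, hz⟩⟩
    exact Nat.card_pos
  have hb1 := ih S r1.range (by omega)
  have hb2 := ih (Sᶜ : Set α) r2.range (by omega)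
  have hn1 := norb_le_card r1.range
  have hn2 := norb_le_card r2.range
  have hk1 : kc (T ⧸ r1.ker) = kc r1.range := kc_congr (QuotientGroup.quotientKerEquivRange r1)
  have hk2 : kc r1.ker = kc r2.range := kc_congr (MonoidHom.ofInjective hinj)
  have hk := NAG T r1.ker
  rw [hk1, hk2] at hk
  unfold PB at hb1 hb2 ⊢
  have hC0 : 0 ≤ C := by linarith
  calc (kc T : ℝ) ≤ (kc r2.range : ℝ) * kc r1.range := by exact_mod_cast hk
    _ ≤ C ^ (Nat.card (Sᶜ : Set α) - norb (Sᶜ : Set α) r2.range) *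
        C ^ (Nat.card S - norb S r1.range) :=
      mul_le_mul hb2 hb1 (Nat.cast_nonneg _) (pow_nonneg hC0 _)
    _ = C ^ ((Nat.card (Sᶜ : Set α) - norb (Sᶜ : Set α) r2.range) +
        (Nat.card S - norb S r1.range)) := (pow_add _ _ _).symm
    _ ≤ C ^ (Nat.card α - norb α T) := pow_le_pow_right₀ hC (by omega)

end Pool.Agent.H4.FN
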